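import Pool.Agent.SOR.Stmts3

/-!
# Squad SOR, row LEX: the rational numbers for a type
-/

set_option autoImplicit false

open scoped BigOperators

noncomputable section

namespace Pool.Agent.SOR.H32

section rr

variable {P : Type} [CommGroup P] {R : Subring ℚ} {r : P → ℚ}

theorem r_one (hr : ∀ p p', r (p * p') - r p - r p' ∈ R) : r 1 ∈ R := by
  have h := R.neg_mem (hr 1 1)
  rw [mul_one] at h
  have e : -(r 1 - r 1 - r 1) = r 1 := by ring
  rwa [e] at h

theorem r_zpow (hr : ∀ p p', r (p * p') - r p - r p' ∈ R) (p : P) (c : ℤ) :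
    r (p ^ c) - c * r p ∈ R := by
  induction c using Int.induction_on with
  | zero =>
    rw [zpow_zero, Int.cast_zero, zero_mul, sub_zero]
    exact r_one hr
  | succ n ih =>
    have h1 := hr (p ^ (n : ℤ)) p
    have h2 := R.add_mem h1 ih
    rw [zpow_add_one]
    have e : r (p ^ (n : ℤ) * p) - ((n : ℤ) + 1 : ℤ) * r p =
        r (p ^ (n : ℤ) * p) - r (p ^ (n : ℤ)) - r p + (r (p ^ (n : ℤ)) - ((n : ℤ) : ℚ) * r p) := by
      push_cast
      ring
    rw [e]
    exact h2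
  | pred n ih =>
    have h1 := hr (p ^ (-(n : ℤ) - 1)) p
    rw [← zpow_add_one, sub_add_cancel] at h1
    have h2 := R.sub_mem ih h1
    have e : r (p ^ (-(n : ℤ))) - ((-(n : ℤ) : ℤ) : ℚ) * r p -
        (r (p ^ (-(n : ℤ))) - r (p ^ (-(n : ℤ) - 1)) - r p) =
        r (p ^ (-(n : ℤ) - 1)) - ((-(n : ℤ) - 1 : ℤ) : ℚ) * r p := by
      push_cast
      ring
    rw [e] at h2
    exact h2

theorem int_mul_mem (c : ℤ) {x : ℚ} (hx : x ∈ R) : (c : ℚ) * x ∈ R := by
  have h := R.zsmul_mem hx c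
  rwa [zsmul_eq_mul] at h

end rr

section ss

variable {P : Type} [CommGroup P] {R : Subring ℚ} {r : P → ℚ}

theorem S_zpow {S : ℤ → ℤ → P → Prop} (h1 : S 0 0 1)
    (hm : ∀ k l p k' l' p', S k l p → S k' l' p' → S (k + k') (l + l') (p * p'))
    (hi : ∀ k l p, S k l p → S (-k) (-l) p⁻¹) {k l : ℤ} {p : P} (h : S k l p) (c : ℤ) :
    S (c * k) (c * l) (p ^ c) := by
  have hn : ∀ m : ℕ, S (m * k) (m * l) (p ^ m) := by
    intro m
    induction m with
    | zero =>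
      rw [Nat.cast_zero, zero_mul, zero_mul, pow_zero]
      exact h1
    | succ m ih =>
      have h2 := hm _ _ _ _ _ _ ih h
      have e1 : ((m + 1 : ℕ) : ℤ) * k = m * k + k := by push_cast; ring
      have e2 : ((m + 1 : ℕ) : ℤ) * l = m * l + l := by push_cast; ring
      rw [e1, e2, pow_succ]
      exact h2
  rcases Int.eq_nat_or_neg c with ⟨m, rfl | rfl⟩
  · rw [zpow_natCast]
    exact hn m
  · have h2 := hi _ _ _ (hn m)
    rw [zpow_neg, zpow_natCast, neg_mul, neg_mul]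
    exact h2

/-- the second number -/
theorem second (hr : ∀ p p', r (p * p') - r p - r p' ∈ R) {S : ℤ → ℤ → P → Prop} (h1 : S 0 0 1)
    (hm : ∀ k l p k' l' p', S k l p → S k' l' p' → S (k + k') (l + l') (p * p'))
    (hi : ∀ k l p, S k l p → S (-k) (-l) p⁻¹) {n : ℕ} (hn0 : 0 < n) (hn : S n 0 1) (ν : ℚ)
    (hν : ∀ l p, S 0 l p → r p - l * ν ∈ R) :
    ∃ α : ℚ, ∀ k l p, S k l p → r p - k * α - l * ν ∈ R := by
  classical
  have hex : ∃ k₀ : ℕ, 0 < k₀ ∧ ∃ l₀ p₀, S k₀ l₀ p₀ := ⟨n, hn0, 0, 1, hn⟩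
  obtain ⟨k₀, hk₀⟩ : ∃ k₀, k₀ = Nat.find hex := ⟨_, rfl⟩
  have hspec := Nat.find_spec hex
  rw [← hk₀] at hspec
  obtain ⟨hk0, l₀, p₀, hS⟩ := hspec
  have hmin : ∀ m : ℕ, m < k₀ → ∀ l p, S m l p → m = 0 := by
    intro m hm' l p h
    by_contra hne
    have h2 : ¬ (0 < m ∧ ∃ l₀ p₀, S m l₀ p₀) := Nat.find_min hex (by rw [← hk₀]; exact hm')
    exact h2 ⟨Nat.pos_of_ne_zero hne, l, p, h⟩
  have hk0z : (0 : ℤ) < k₀ := by exact_mod_cast hk0
  have hk0q : (k₀ : ℚ) ≠ 0 := by exact_mod_cast hk0.ne'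
  refine ⟨(r p₀ - l₀ * ν) / k₀, ?_⟩
  intro k l p h
  have h3 := S_zpow h1 hm hi hS (-(k / k₀))
  have h4 := hm _ _ _ _ _ _ h h3
  have e1 : k + -(k / (k₀ : ℤ)) * k₀ = k % k₀ := by
    rw [Int.emod_def]
    ring
  rw [e1] at h4
  have h5 : 0 ≤ k % (k₀ : ℤ) := Int.emod_nonneg _ hk0z.ne'
  have h6 : k % (k₀ : ℤ) < k₀ := Int.emod_lt_of_pos _ hk0z
  obtain ⟨m, hm2⟩ := Int.eq_ofNat_of_zero_le h5
  rw [hm2] at h4 h6
  have h7 : m = 0 := hmin m (by exact_mod_cast h6) _ _ h4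
  rw [h7] at h4 hm2
  have h8 := hν _ _ h4
  have h9 := hr p (p₀ ^ (-(k / (k₀ : ℤ))))
  have h10 := r_zpow hr p₀ (-(k / (k₀ : ℤ)))
  have h11 := R.sub_mem h8 (R.add_mem h9 h10)
  have e2 : k = (k / (k₀ : ℤ)) * k₀ := by
    have h12 := Int.mul_ediv_add_emod k k₀
    rw [hm2, Nat.cast_zero, add_zero, mul_comm] at h12
    exact h12.symm
  have e2q : (k : ℚ) = ((k / (k₀ : ℤ) : ℤ) : ℚ) * k₀ := by
    conv_lhs => rw [e2]
    push_cast
    rfl
  obtain ⟨c, hc⟩ : ∃ c : ℤ, c = k / (k₀ : ℤ) := ⟨_, rfl⟩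
  rw [← hc] at h11 e2q
  have e3 : r p - k * ((r p₀ - l₀ * ν) / k₀) - l * ν =
      r (p * p₀ ^ (-c)) - ((l + -c * l₀ : ℤ) : ℚ) * ν -
      (r (p * p₀ ^ (-c)) - r p - r (p₀ ^ (-c)) + (r (p₀ ^ (-c)) - ((-c : ℤ) : ℚ) * r p₀)) := by
    rw [e2q]
    push_cast
    field_simp
    ring
  rw [e3]
  exact h11

end ss

section types

variable {Γ X P : Type} [Group Γ] [CommGroup P] {n : ℕ} {Q : Subgroup P}
  {i : Γ →* Equiv.Perm X} {q : Q →* Equiv.Perm X} {s t : Γ}

theorem perm_inv {X : Type} (σ : Equiv.Perm X) (x : X) : σ⁻¹ (σ x) = x :=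
  DFunLike.congr_fun (inv_mul_cancel σ) x

theorem zpow_congr {g : Γ} (hg : i (g ^ n) = 1) {k k' : ℤ} (h : (k : ZMod n) = (k' : ZMod n)) :
    i (g ^ k) = i (g ^ k') := by
  rw [ZMod.intCast_eq_intCast_iff_dvd_sub] at h
  obtain ⟨m, hm⟩ := h
  have e : k' = k + n * m := by linarith
  rw [e, zpow_add, zpow_mul, zpow_natCast, map_mul, map_zpow i (g ^ n) m, hg, one_zpow, mul_one]

theorem mem_ty1 (hs : i (s ^ n) = 1) {x : X} (p : Q) (k : ℤ) :
    (Multiplicative.ofAdd (k : ZMod n), (p : P)) ∈ ty1 n i q s x ↔ i (s ^ k) x = q p x := by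
  constructor
  · rintro ⟨k', p', h1, h2⟩
    rw [Prod.mk.injEq] at h1
    have h3 : (k : ZMod n) = (k' : ZMod n) := Multiplicative.ofAdd.injective h1.1
    have h4 : p = p' := Subtype.ext h1.2
    rw [zpow_congr hs h3, h4]
    exact h2
  · intro h
    exact ⟨k, p, rfl, h⟩

theorem mem_ty2 (hs : i (s ^ n) = 1) (ht : i (t ^ n) = 1) {x : X} (p : Q) (k l : ℤ) :
    (Multiplicative.ofAdd (k : ZMod n), Multiplicative.ofAdd (l : ZMod n), (p : P)) ∈
      ty2 n i q s t x ↔ i (s ^ k * t ^ l) x = q p x := by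
  constructor
  · rintro ⟨k', l', p', h1, h2⟩
    rw [Prod.mk.injEq, Prod.mk.injEq] at h1
    have h3 : (k : ZMod n) = (k' : ZMod n) := Multiplicative.ofAdd.injective h1.1
    have h5 : (l : ZMod n) = (l' : ZMod n) := Multiplicative.ofAdd.injective h1.2.1
    have h4 : p = p' := Subtype.ext h1.2.2
    rw [map_mul, zpow_congr hs h3, zpow_congr ht h5, h4, ← map_mul]
    exact h2
  · intro h
    exact ⟨k, l, p, rfl, h⟩

theorem mem_ty1_Q {x : X} {z : Multiplicative (ZMod n)} {p : P} (h : (z, p) ∈ ty1 n i q s x) :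
    p ∈ Q := by
  obtain ⟨k, p', h1, _⟩ := h
  rw [Prod.mk.injEq] at h1
  rw [h1.2]
  exact p'.2

theorem mem_ty2_Q {x : X} {z w : Multiplicative (ZMod n)} {p : P}
    (h : (z, w, p) ∈ ty2 n i q s t x) : p ∈ Q := by
  obtain ⟨k, l, p', h1, _⟩ := h
  rw [Prod.mk.injEq, Prod.mk.injEq] at h1
  rw [h1.2.2]
  exact p'.2

theorem mul_rel (hc : ∀ g p x, i g (q p x) = q p (i g x)) {x : X} {g g' : Γ} {p p' : Q}
    (h : i g x = q p x) (h' : i g' x = q p' x) : i (g * g') x = q (p * p') x := by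
  have e1 : i (g * g') x = i g (i g' x) := by
    rw [map_mul]
    rfl
  have e2 : q (p * p') x = q p' (q p x) := by
    rw [mul_comm, map_mul]
    rfl
  rw [e1, h', hc, h, e2]

theorem inv_rel (hc : ∀ g p x, i g (q p x) = q p (i g x)) {x : X} {g : Γ} {p : Q}
    (h : i g x = q p x) : i g⁻¹ x = q p⁻¹ x := by
  have e1 : i g⁻¹ (i g x) = x := by
    rw [map_inv]
    exact perm_inv _ _
  have e2 : q p⁻¹ (q p (i g⁻¹ x)) = i g⁻¹ x := by
    rw [map_inv]
    exact perm_inv _ _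
  rw [← e2, ← hc, ← h, e1]

theorem free_rel {x : X} (hx : x ∈ Gd q) {p p' : Q} (h : q p x = q p' x) : p = p' := by
  have h1 : q (p'⁻¹ * p) x = x := by
    have e : q (p'⁻¹ * p) x = q p'⁻¹ (q p x) := by
      rw [map_mul]
      rfl
    rw [e, h, map_inv]
    exact perm_inv _ _
  have h2 := hx _ h1
  exact (inv_mul_eq_one.1 h2).symm

end types

/-- LEX -/
theorem lex : LexStmt := by
  intro Γ X P _ _ _ R n hn Q i q s t hc hst hs ht x hx r hr
  have hrQ : ∀ p p' : Q, r ((p * p' : Q) : P) - r (p : P) - r (p' : P) ∈ R := by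
    intro p p'
    rw [Subgroup.coe_mul]
    exact hr _ _
  have hcm : Commute s t := hst
  have h00 : i (1 : Γ) x = q 1 x := by
    rw [map_one, map_one]
  refine ⟨fun p k => mem_ty1 hs p k, fun p k l => mem_ty2 hs ht p k l, ?_, ?_, ?_⟩
  · -- one variable
    obtain ⟨α, hα⟩ := second (P := Q) (R := R) (r := fun p : Q => r (p : P)) hrQ
      (S := fun k l p => l = 0 ∧ i (s ^ k) x = q p x)
      ⟨rfl, by rw [zpow_zero]; exact h00⟩
      (by
        rintro k l p k' l' p' ⟨h1, h2⟩ ⟨h3, h4⟩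
        refine ⟨by omega, ?_⟩
        rw [zpow_add]
        exact mul_rel hc h2 h4)
      (by
        rintro k l p ⟨h1, h2⟩
        refine ⟨by omega, ?_⟩
        rw [zpow_neg]
        exact inv_rel hc h2)
      hn ⟨rfl, by rw [zpow_natCast, hs, map_one]⟩ 0
      (by
        rintro l p ⟨h1, h2⟩
        have h3 : p = 1 := by
          apply free_rel hx
          rw [← h2, zpow_zero]
          exact h00
        show r (p : P) - l * 0 ∈ R
        rw [h3, mul_zero, sub_zero]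
        exact r_one hr)
    refine ⟨α, ?_⟩
    intro k p hp
    have hpQ := mem_ty1_Q hp
    have h1 := (mem_ty1 (q := q) hs ⟨p, hpQ⟩ k).1 hp
    have h2 := hα k 0 ⟨p, hpQ⟩ ⟨rfl, h1⟩
    rw [Int.cast_zero, zero_mul, sub_zero] at h2
    exact h2
  · -- the number for an element `(1, p)`
    intro p hp k p' hp'
    have hpQ := mem_ty1_Q hp
    have hpQ' := mem_ty1_Q hp'
    have h1 := (mem_ty1 (q := q) hs ⟨p', hpQ'⟩ k).1 hp'
    have h2 : i (s ^ (1 : ℤ)) x = q ⟨p, hpQ⟩ x := by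
      have h3 := mem_ty1 (q := q) (x := x) hs ⟨p, hpQ⟩ 1
      rw [Int.cast_one] at h3
      exact h3.1 hp
    have h4 := S_zpow (P := Q) (S := fun k l p => l = 0 ∧ i (s ^ k) x = q p x)
      ⟨rfl, by rw [zpow_zero]; exact h00⟩
      (by
        rintro k l p k' l' p' ⟨h1, h2⟩ ⟨h3, h4⟩
        refine ⟨by omega, ?_⟩
        rw [zpow_add]
        exact mul_rel hc h2 h4)
      (by
        rintro k l p ⟨h1, h2⟩
        refine ⟨by omega, ?_⟩
        rw [zpow_neg]
        exact inv_rel hc h2) (k := 1) (l := 0) (p := ⟨p, hpQ⟩) ⟨rfl, h2⟩ k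
    have h5 := h4.2
    rw [mul_one, h1] at h5
    have h6 := free_rel hx h5
    have h7 : p' = p ^ k := by
      have h8 := congrArg Subtype.val h6
      rw [Subgroup.coe_zpow] at h8
      exact h8
    rw [h7]
    exact r_zpow hr p k
  · -- two variables
    intro ν hν
    obtain ⟨α, hα⟩ := second (P := Q) (R := R) (r := fun p : Q => r (p : P)) hrQ
      (S := fun k l p => i (s ^ k * t ^ l) x = q p x)
      (by rw [zpow_zero, zpow_zero, mul_one]; exact h00)
      (by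
        intro k l p k' l' p' h1 h2
        have e : s ^ (k + k') * t ^ (l + l') = s ^ k * t ^ l * (s ^ k' * t ^ l') := by
          have h3 : s ^ k' * t ^ l = t ^ l * s ^ k' := ((hcm.zpow_left k').zpow_right l).eq
          rw [zpow_add, zpow_add, mul_assoc (s ^ k), ← mul_assoc (s ^ k') (t ^ l) (t ^ l'), h3]
          simp only [mul_assoc]
        rw [e]
        exact mul_rel hc h1 h2)
      (by
        intro k l p h1
        have e : s ^ (-k) * t ^ (-l) = (s ^ k * t ^ l)⁻¹ := by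
          have h3 : s ^ k * t ^ l = t ^ l * s ^ k := ((hcm.zpow_left k).zpow_right l).eq
          rw [h3, mul_inv_rev, zpow_neg, zpow_neg]
        rw [e]
        exact inv_rel hc h1)
      hn (by rw [zpow_natCast, zpow_zero, mul_one, hs, map_one]) ν
      (by
        intro l p h1
        rw [zpow_zero, one_mul] at h1
        have h2 := (mem_ty1 (n := n) ht p l).2 h1
        exact hν l p h2)
    refine ⟨α, ?_⟩
    intro k l p hp
    have hpQ := mem_ty2_Q hp
    have h1 := (mem_ty2 (q := q) hs ht ⟨p, hpQ⟩ k l).1 hp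
    exact hα k l ⟨p, hpQ⟩ h1

end Pool.Agent.SOR.H32
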