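import Pool.Agent.Helper32_SOR.LEX

/-!
# Squad SOR, row UNI: universal functions of the types
-/

set_option autoImplicit false
set_option linter.unusedSectionVars false

open scoped BigOperators

noncomputable section

namespace Pool.Agent.SOR.H32

/-! ### the functions of the types -/

section fn

variable {P : Type} [CommGroup P]

open Classical in
/-- the number for a set of elements of `Z × P` -/
def mu (R : Subring ℚ) (n : ℕ) (r : P → ℚ) (U : Set (L1 n P)) : ℚ :=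
  if h : ∃ p, ∀ p', (Multiplicative.ofAdd (1 : ZMod n), p') ∈ U ↔ p' = p then r h.choose
  else if ∀ g ∈ U, r g.2 ∈ R then 0
  else if h : ∃ μ : ℚ, ∀ (k : ℤ) (p : P), (Multiplicative.ofAdd (k : ZMod n), p) ∈ U →
    r p - k * μ ∈ R then h.choose
  else 0

open Classical in
/-- the first number for a set of elements of `Z × Z × P` -/
def al (R : Subring ℚ) (n : ℕ) (r : P → ℚ) (ν : ℚ) (Λ : Set (L2 n P)) : ℚ :=
  if ∀ g ∈ Λ, r g.2.2 ∈ R then 0
  else if h : ∃ α : ℚ, ∀ (k l : ℤ) (p : P), (Multiplicative.ofAdd (k : ZMod n),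
    Multiplicative.ofAdd (l : ZMod n), p) ∈ Λ → r p - k * α - l * ν ∈ R then h.choose
  else 0

open Classical in
/-- the second number for a set of elements of `Z × Z × P` -/
def be (R : Subring ℚ) (n : ℕ) (r : P → ℚ) (μ : ℚ) (Λ : Set (L2 n P)) : ℚ :=
  if ∀ g ∈ Λ, r g.2.2 ∈ R then 0
  else if h : ∃ β : ℚ, ∀ (k l : ℤ) (p : P), (Multiplicative.ofAdd (k : ZMod n),
    Multiplicative.ofAdd (l : ZMod n), p) ∈ Λ → r p - k * μ - l * β ∈ R then h.choose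
  else 0

open Classical in
/-- the second number for a set of elements of `Z × Z × P`, equal to `ν` if possible -/
def bf (R : Subring ℚ) (n : ℕ) (r : P → ℚ) (μ ν : ℚ) (Λ : Set (L2 n P)) : ℚ :=
  if ∀ g ∈ Λ, r g.2.2 ∈ R then 0
  else if ∀ (k l : ℤ) (p : P), (Multiplicative.ofAdd (k : ZMod n),
    Multiplicative.ofAdd (l : ZMod n), p) ∈ Λ → r p - k * μ - l * ν ∈ R then ν
  else if h : ∃ β : ℚ, ∀ (k l : ℤ) (p : P), (Multiplicative.ofAdd (k : ZMod n),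
    Multiplicative.ofAdd (l : ZMod n), p) ∈ Λ → r p - k * μ - l * β ∈ R then h.choose
  else 0

/-- the first slice -/
def Ls (n : ℕ) (Λ : Set (L2 n P)) : Set (L1 n P) := {g | (g.1, 1, g.2) ∈ Λ}

/-- the second slice -/
def Lt (n : ℕ) (Λ : Set (L2 n P)) : Set (L1 n P) := {g | (1, g.1, g.2) ∈ Λ}

variable {R : Subring ℚ} {n : ℕ} {r : P → ℚ}

theorem mu_one {U : Set (L1 n P)} {p : P}
    (h : ∀ p', (Multiplicative.ofAdd (1 : ZMod n), p') ∈ U ↔ p' = p) : mu R n r U = r p := by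
  have hex : ∃ p, ∀ p', (Multiplicative.ofAdd (1 : ZMod n), p') ∈ U ↔ p' = p := ⟨p, h⟩
  unfold mu
  rw [dif_pos hex]
  have h1 := hex.choose_spec p
  have h2 : p = hex.choose := h1.1 ((h p).2 rfl)
  rw [← h2]

theorem mu_zero (h0 : ∀ p, r p ∈ R → r p = 0) {U : Set (L1 n P)} (h : ∀ g ∈ U, r g.2 ∈ R) :
    mu R n r U = 0 := by
  by_cases hex : ∃ p, ∀ p', (Multiplicative.ofAdd (1 : ZMod n), p') ∈ U ↔ p' = p
  · obtain ⟨p, hp⟩ := hex
    rw [mu_one hp]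
    exact h0 p (h _ ((hp p).2 rfl))
  · unfold mu
    rw [dif_neg hex, if_pos h]

theorem mu_spec {U : Set (L1 n P)}
    (h3 : ∃ μ : ℚ, ∀ (k : ℤ) (p : P), (Multiplicative.ofAdd (k : ZMod n), p) ∈ U →
      r p - k * μ ∈ R)
    (h4 : ∀ p : P, (Multiplicative.ofAdd (1 : ZMod n), p) ∈ U →
      ∀ (k : ℤ) (p' : P), (Multiplicative.ofAdd (k : ZMod n), p') ∈ U → r p' - k * r p ∈ R)
    (k : ℤ) (p : P) (hp : (Multiplicative.ofAdd (k : ZMod n), p) ∈ U) :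
    r p - k * mu R n r U ∈ R := by
  by_cases hex : ∃ p, ∀ p', (Multiplicative.ofAdd (1 : ZMod n), p') ∈ U ↔ p' = p
  · obtain ⟨p₁, hp₁⟩ := hex
    rw [mu_one hp₁]
    exact h4 p₁ ((hp₁ p₁).2 rfl) k p hp
  · by_cases hR : ∀ g ∈ U, r g.2 ∈ R
    · unfold mu
      rw [dif_neg hex, if_pos hR, mul_zero, sub_zero]
      exact hR _ hp
    · unfold mu
      rw [dif_neg hex, if_neg hR, dif_pos h3]
      exact h3.choose_spec k p hp

theorem al_zero {ν : ℚ} {Λ : Set (L2 n P)} (h : ∀ g ∈ Λ, r g.2.2 ∈ R) : al R n r ν Λ = 0 := by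
  unfold al
  rw [if_pos h]

theorem be_zero {μ : ℚ} {Λ : Set (L2 n P)} (h : ∀ g ∈ Λ, r g.2.2 ∈ R) : be R n r μ Λ = 0 := by
  unfold be
  rw [if_pos h]

theorem bf_zero {μ ν : ℚ} {Λ : Set (L2 n P)} (h : ∀ g ∈ Λ, r g.2.2 ∈ R) :
    bf R n r μ ν Λ = 0 := by
  unfold bf
  rw [if_pos h]

theorem bf_nu {μ ν : ℚ} {Λ : Set (L2 n P)} (h0 : (∀ g ∈ Λ, r g.2.2 ∈ R) → ν = 0)
    (h : ∀ (k l : ℤ) (p : P), (Multiplicative.ofAdd (k : ZMod n),
      Multiplicative.ofAdd (l : ZMod n), p) ∈ Λ → r p - k * μ - l * ν ∈ R) :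
    bf R n r μ ν Λ = ν := by
  by_cases hR : ∀ g ∈ Λ, r g.2.2 ∈ R
  · rw [bf_zero hR, h0 hR]
  · unfold bf
    rw [if_neg hR, if_pos h]

theorem bf_spec {μ ν : ℚ} {Λ : Set (L2 n P)} (h0 : (∀ g ∈ Λ, r g.2.2 ∈ R) → μ = 0)
    (h3 : ∃ β : ℚ, ∀ (k l : ℤ) (p : P), (Multiplicative.ofAdd (k : ZMod n),
      Multiplicative.ofAdd (l : ZMod n), p) ∈ Λ → r p - k * μ - l * β ∈ R)
    (k l : ℤ) (p : P) (hp : (Multiplicative.ofAdd (k : ZMod n),
      Multiplicative.ofAdd (l : ZMod n), p) ∈ Λ) : r p - k * μ - l * bf R n r μ ν Λ ∈ R := by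
  by_cases hR : ∀ g ∈ Λ, r g.2.2 ∈ R
  · rw [bf_zero hR, h0 hR, mul_zero, mul_zero, sub_zero, sub_zero]
    exact hR _ hp
  · by_cases hν : ∀ (k l : ℤ) (p : P), (Multiplicative.ofAdd (k : ZMod n),
      Multiplicative.ofAdd (l : ZMod n), p) ∈ Λ → r p - k * μ - l * ν ∈ R
    · unfold bf
      rw [if_neg hR, if_pos hν]
      exact hν k l p hp
    · unfold bf
      rw [if_neg hR, if_neg hν, dif_pos h3]
      exact h3.choose_spec k l p hp

theorem al_spec {ν : ℚ} {Λ : Set (L2 n P)} (h0 : (∀ g ∈ Λ, r g.2.2 ∈ R) → ν = 0)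
    (h3 : ∃ α : ℚ, ∀ (k l : ℤ) (p : P), (Multiplicative.ofAdd (k : ZMod n),
      Multiplicative.ofAdd (l : ZMod n), p) ∈ Λ → r p - k * α - l * ν ∈ R)
    (k l : ℤ) (p : P) (hp : (Multiplicative.ofAdd (k : ZMod n),
      Multiplicative.ofAdd (l : ZMod n), p) ∈ Λ) : r p - k * al R n r ν Λ - l * ν ∈ R := by
  by_cases hR : ∀ g ∈ Λ, r g.2.2 ∈ R
  · rw [al_zero hR, h0 hR, mul_zero, mul_zero, sub_zero, sub_zero]
    exact hR _ hp
  · unfold al
    rw [if_neg hR, dif_pos h3]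
    exact h3.choose_spec k l p hp

theorem be_spec {μ : ℚ} {Λ : Set (L2 n P)} (h0 : (∀ g ∈ Λ, r g.2.2 ∈ R) → μ = 0)
    (h3 : ∃ β : ℚ, ∀ (k l : ℤ) (p : P), (Multiplicative.ofAdd (k : ZMod n),
      Multiplicative.ofAdd (l : ZMod n), p) ∈ Λ → r p - k * μ - l * β ∈ R)
    (k l : ℤ) (p : P) (hp : (Multiplicative.ofAdd (k : ZMod n),
      Multiplicative.ofAdd (l : ZMod n), p) ∈ Λ) : r p - k * μ - l * be R n r μ Λ ∈ R := by
  by_cases hR : ∀ g ∈ Λ, r g.2.2 ∈ R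
  · rw [be_zero hR, h0 hR, mul_zero, mul_zero, sub_zero, sub_zero]
    exact hR _ hp
  · unfold be
    rw [if_neg hR, dif_pos h3]
    exact h3.choose_spec k l p hp

end fn

/-! ### invariance of the types -/

section inv

variable {Γ X P : Type} [Group Γ] [CommGroup P] {n : ℕ} {Q : Subgroup P}
  {i : Γ →* Equiv.Perm X} {q : Q →* Equiv.Perm X} {s t : Γ}

theorem ty1_congr {s s' : Γ} {x x' : X}
    (h : ∀ (k : ℤ) (p : Q), i (s ^ k) x = q p x ↔ i (s' ^ k) x' = q p x') :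
    ty1 n i q s x = ty1 n i q s' x' := by
  ext g
  constructor
  · rintro ⟨k, p, h1, h2⟩
    exact ⟨k, p, h1, (h k p).1 h2⟩
  · rintro ⟨k, p, h1, h2⟩
    exact ⟨k, p, h1, (h k p).2 h2⟩

theorem ty2_congr {s t s' t' : Γ} {x x' : X}
    (h : ∀ (k l : ℤ) (p : Q), i (s ^ k * t ^ l) x = q p x ↔ i (s' ^ k * t' ^ l) x' = q p x') :
    ty2 n i q s t x = ty2 n i q s' t' x' := by
  ext g
  constructor
  · rintro ⟨k, l, p, h1, h2⟩
    exact ⟨k, l, p, h1, (h k l p).1 h2⟩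
  · rintro ⟨k, l, p, h1, h2⟩
    exact ⟨k, l, p, h1, (h k l p).2 h2⟩

/-- a permutation which commutes with `g` and `q p` -/
theorem rel_perm {w g : Equiv.Perm X} {c : Equiv.Perm X} (h1 : ∀ x, w (g x) = g (w x))
    (h2 : ∀ x, w (c x) = c (w x)) (x : X) : g (w x) = c (w x) ↔ g x = c x := by
  rw [← h1, ← h2]
  exact w.injective.eq_iff

theorem rel_conj (hc : ∀ g p x, i g (q p x) = q p (i g x)) (g w : Γ) (p : Q) (x : X) :
    i w (i g x) = q p (i g x) ↔ i (g⁻¹ * w * g) x = q p x := by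
  have e1 : i (g⁻¹ * w * g) x = i g⁻¹ (i w (i g x)) := by
    rw [map_mul, map_mul]
    rfl
  have e2 : ∀ y, i g (i g⁻¹ y) = y := by
    intro y
    have h := DFunLike.congr_fun (map_mul i g g⁻¹) y
    rw [mul_inv_cancel, map_one] at h
    exact h.symm
  rw [e1]
  constructor
  · intro h
    have h1 := congrArg (i g⁻¹) h
    rw [h1, hc]
    have h2 : i g⁻¹ (i g x) = x := by
      have h := DFunLike.congr_fun (map_mul i g⁻¹ g) x
      rw [inv_mul_cancel, map_one] at h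
      exact h.symm
    rw [h2]
  · intro h
    have h1 := congrArg (i g) h
    rw [e2, hc] at h1
    exact h1

theorem ty1_conj (hc : ∀ g p x, i g (q p x) = q p (i g x)) (g : Γ) (x : X) :
    ty1 n i q s (i g x) = ty1 n i q (g⁻¹ * s * g) x := by
  apply ty1_congr
  intro k p
  rw [rel_conj hc]
  have e : (g⁻¹ * s * g) ^ k = g⁻¹ * s ^ k * g := by
    have h := conj_zpow (i := k) (a := g⁻¹) (b := s)
    rw [inv_inv] at h
    exact h
  rw [e]

theorem ty2_conj (hc : ∀ g p x, i g (q p x) = q p (i g x)) (g : Γ) (x : X) :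
    ty2 n i q s t (i g x) = ty2 n i q (g⁻¹ * s * g) (g⁻¹ * t * g) x := by
  apply ty2_congr
  intro k l p
  rw [rel_conj hc]
  have e : ∀ (w : Γ) (k : ℤ), (g⁻¹ * w * g) ^ k = g⁻¹ * w ^ k * g := by
    intro w k
    have h := conj_zpow (i := k) (a := g⁻¹) (b := w)
    rw [inv_inv] at h
    exact h
  rw [e, e]
  have e2 : g⁻¹ * s ^ k * g * (g⁻¹ * t ^ l * g) = g⁻¹ * (s ^ k * t ^ l) * g := by
    group
  rw [e2]

theorem ty1_inv (hc : ∀ g p x, i g (q p x) = q p (i g x)) {g : Γ} (h : Commute g s) (x : X) :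
    ty1 n i q s (i g x) = ty1 n i q s x := by
  rw [ty1_conj hc]
  have e : g⁻¹ * s * g = s := by
    rw [mul_assoc, ← h.eq, inv_mul_cancel_left]
  rw [e]

theorem ty2_inv (hc : ∀ g p x, i g (q p x) = q p (i g x)) {g : Γ} (h : Commute g s)
    (h' : Commute g t) (x : X) : ty2 n i q s t (i g x) = ty2 n i q s t x := by
  rw [ty2_conj hc]
  have e : g⁻¹ * s * g = s := by
    rw [mul_assoc, ← h.eq, inv_mul_cancel_left]
  have e' : g⁻¹ * t * g = t := by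
    rw [mul_assoc, ← h'.eq, inv_mul_cancel_left]
  rw [e, e']

/-- a permutation which commutes with everything -/
theorem ty1_perm {w : Equiv.Perm X} (h1 : ∀ g x, w (i g x) = i g (w x))
    (h2 : ∀ p x, w (q p x) = q p (w x)) (x : X) : ty1 n i q s (w x) = ty1 n i q s x := by
  apply ty1_congr
  intro k p
  exact rel_perm (h1 _) (h2 _) x

theorem ty2_perm {w : Equiv.Perm X} (h1 : ∀ g x, w (i g x) = i g (w x))
    (h2 : ∀ p x, w (q p x) = q p (w x)) (x : X) : ty2 n i q s t (w x) = ty2 n i q s t x := by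
  apply ty2_congr
  intro k l p
  exact rel_perm (h1 _) (h2 _) x

theorem Ls_ty2 (hs : i (s ^ n) = 1) (ht : i (t ^ n) = 1) (x : X) :
    Ls n (ty2 n i q s t x) = ty1 n i q s x := by
  ext ⟨z, p⟩
  obtain ⟨k, hk⟩ := ZMod.intCast_surjective (Multiplicative.toAdd z)
  have hz : z = Multiplicative.ofAdd (k : ZMod n) := by
    rw [hk]
    rfl
  show (z, 1, p) ∈ ty2 n i q s t x ↔ _
  have h1 : (1 : Multiplicative (ZMod n)) = Multiplicative.ofAdd ((0 : ℤ) : ZMod n) := by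
    rw [Int.cast_zero]
    rfl
  rw [hz, h1]
  by_cases hp : p ∈ Q
  · rw [show p = ((⟨p, hp⟩ : Q) : P) from rfl, mem_ty2 hs ht, mem_ty1 hs, zpow_zero, mul_one]
  · constructor
    · intro h
      exact absurd (mem_ty2_Q h) hp
    · intro h
      exact absurd (mem_ty1_Q h) hp

theorem Lt_ty2 (hs : i (s ^ n) = 1) (ht : i (t ^ n) = 1) (x : X) :
    Lt n (ty2 n i q s t x) = ty1 n i q t x := by
  ext ⟨z, p⟩
  obtain ⟨k, hk⟩ := ZMod.intCast_surjective (Multiplicative.toAdd z)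
  have hz : z = Multiplicative.ofAdd (k : ZMod n) := by
    rw [hk]
    rfl
  show (1, z, p) ∈ ty2 n i q s t x ↔ _
  have h1 : (1 : Multiplicative (ZMod n)) = Multiplicative.ofAdd ((0 : ℤ) : ZMod n) := by
    rw [Int.cast_zero]
    rfl
  rw [hz, h1]
  by_cases hp : p ∈ Q
  · rw [show p = ((⟨p, hp⟩ : Q) : P) from rfl, mem_ty2 hs ht, mem_ty1 ht, zpow_zero, one_mul]
  · constructor
    · intro h
      exact absurd (mem_ty2_Q h) hp
    · intro h
      exact absurd (mem_ty1_Q h) hp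

end inv

/-! ### the numbers at a point -/

section pt

variable {Γ X P : Type} [Group Γ] [CommGroup P] [Finite P] {n : ℕ} {Q : Subgroup P}
  {i : Γ →* Equiv.Perm X} {q : Q →* Equiv.Perm X} {s t : Γ} {R : Subring ℚ} {r : P → ℚ}

theorem pt_mu (hlex : LexStmt) (hn : 0 < n) (hc : ∀ g p x, i g (q p x) = q p (i g x))
    (hs : i (s ^ n) = 1) {x : X} (hx : x ∈ Gd q) (hr : ∀ p p', r (p * p') - r p - r p' ∈ R)
    (k : ℤ) (p : P) (hp : (Multiplicative.ofAdd (k : ZMod n), p) ∈ ty1 n i q s x) :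
    r p - k * mu R n r (ty1 n i q s x) ∈ R := by
  obtain ⟨_, _, h3, h4, _⟩ := hlex Γ X P R n hn Q i q s s hc rfl hs hs x hx r hr
  exact mu_spec h3 h4 k p hp

theorem pt_al (hlex : LexStmt) (hn : 0 < n) (hc : ∀ g p x, i g (q p x) = q p (i g x))
    (hst : s * t = t * s) (hs : i (s ^ n) = 1) (ht : i (t ^ n) = 1) {x : X} (hx : x ∈ Gd q)
    (hr : ∀ p p', r (p * p') - r p - r p' ∈ R) (h0 : ∀ p, r p ∈ R → r p = 0)
    (k l : ℤ) (p : P) (hp : (Multiplicative.ofAdd (k : ZMod n), Multiplicative.ofAdd (l : ZMod n),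
      p) ∈ ty2 n i q s t x) :
    r p - k * al R n r (mu R n r (ty1 n i q t x)) (ty2 n i q s t x) -
      l * mu R n r (ty1 n i q t x) ∈ R := by
  obtain ⟨_, _, _, _, h5⟩ := hlex Γ X P R n hn Q i q s t hc hst hs ht x hx r hr
  apply al_spec _ (h5 _ fun l p hp => pt_mu hlex hn hc ht hx hr l p hp) k l p hp
  intro h
  apply mu_zero h0
  intro g hg
  rw [← Lt_ty2 hs ht] at hg
  exact h _ hg

theorem ty2_swap (hst : s * t = t * s) (hs : i (s ^ n) = 1) (ht : i (t ^ n) = 1) {x : X}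
    {k l : ℤ} {p : P} (hp : (Multiplicative.ofAdd (k : ZMod n),
      Multiplicative.ofAdd (l : ZMod n), p) ∈ ty2 n i q s t x) :
    (Multiplicative.ofAdd (l : ZMod n), Multiplicative.ofAdd (k : ZMod n), p) ∈
      ty2 n i q t s x := by
  have hpQ := mem_ty2_Q hp
  have h1 := (mem_ty2 (q := q) hs ht ⟨p, hpQ⟩ k l).1 hp
  apply (mem_ty2 (q := q) ht hs ⟨p, hpQ⟩ l k).2
  have hcm : Commute s t := hst
  have h3 : s ^ k * t ^ l = t ^ l * s ^ k := ((hcm.zpow_left k).zpow_right l).eq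
  rw [← h3]
  exact h1

theorem pt_be (hlex : LexStmt) (hn : 0 < n) (hc : ∀ g p x, i g (q p x) = q p (i g x))
    (hst : s * t = t * s) (hs : i (s ^ n) = 1) (ht : i (t ^ n) = 1) {x : X} (hx : x ∈ Gd q)
    (hr : ∀ p p', r (p * p') - r p - r p' ∈ R) (h0 : ∀ p, r p ∈ R → r p = 0)
    (k l : ℤ) (p : P) (hp : (Multiplicative.ofAdd (k : ZMod n), Multiplicative.ofAdd (l : ZMod n),
      p) ∈ ty2 n i q s t x) :
    r p - k * mu R n r (ty1 n i q s x) -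
      l * be R n r (mu R n r (ty1 n i q s x)) (ty2 n i q s t x) ∈ R := by
  obtain ⟨_, _, _, _, h5⟩ := hlex Γ X P R n hn Q i q t s hc hst.symm ht hs x hx r hr
  obtain ⟨α, hα⟩ := h5 _ fun l p hp => pt_mu hlex hn hc hs hx hr l p hp
  refine be_spec ?_ ⟨α, fun k l p hp => ?_⟩ k l p hp
  · intro h
    apply mu_zero h0
    intro g hg
    rw [← Ls_ty2 hs ht] at hg
    exact h _ hg
  · have h6 := hα l k p (ty2_swap hst hs ht hp)
    have e : r p - k * mu R n r (ty1 n i q s x) - l * α =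
        r p - l * α - k * mu R n r (ty1 n i q s x) := by ring
    rw [e]
    exact h6

theorem pt_bf (hlex : LexStmt) (hn : 0 < n) (hc : ∀ g p x, i g (q p x) = q p (i g x))
    (hst : s * t = t * s) (hs : i (s ^ n) = 1) (ht : i (t ^ n) = 1) {x : X} (hx : x ∈ Gd q)
    (hr : ∀ p p', r (p * p') - r p - r p' ∈ R) (h0 : ∀ p, r p ∈ R → r p = 0) (ν : ℚ)
    (k l : ℤ) (p : P) (hp : (Multiplicative.ofAdd (k : ZMod n), Multiplicative.ofAdd (l : ZMod n),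
      p) ∈ ty2 n i q s t x) :
    r p - k * mu R n r (ty1 n i q s x) -
      l * bf R n r (mu R n r (ty1 n i q s x)) ν (ty2 n i q s t x) ∈ R := by
  obtain ⟨_, _, _, _, h5⟩ := hlex Γ X P R n hn Q i q t s hc hst.symm ht hs x hx r hr
  obtain ⟨α, hα⟩ := h5 _ fun l p hp => pt_mu hlex hn hc hs hx hr l p hp
  refine bf_spec ?_ ⟨α, fun k l p hp => ?_⟩ k l p hp
  · intro h
    apply mu_zero h0
    intro g hg
    rw [← Ls_ty2 hs ht] at hg
    exact h _ hg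
  · have h6 := hα l k p (ty2_swap hst hs ht hp)
    have e : r p - k * mu R n r (ty1 n i q s x) - l * α =
        r p - l * α - k * mu R n r (ty1 n i q s x) := by ring
    rw [e]
    exact h6

/-- from the `M`-th powers to the elements -/
theorem pow_rel (hc : ∀ g p x, i g (q p x) = q p (i g x)) {x : X} {g : Γ} {p : Q}
    (h : i g x = q p x) (M : ℕ) : i (g ^ M) x = q (p ^ M) x := by
  induction M with
  | zero =>
    rw [pow_zero, pow_zero, map_one, map_one]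
  | succ m ih =>
    rw [pow_succ, pow_succ]
    exact mul_rel hc ih h

theorem r_pow_M {ℓ e M n : ℕ} [Fact ℓ.Prime] {P : Type} [CommGroup P] {r : P → ℚ}
    (hr : ∀ p p', r (p * p') - r p - r p' ∈ Rl ℓ) (hre : ∀ p, (ℓ : ℚ) ^ e * r p ∈ Rl ℓ)
    (hn : n = ℓ ^ e) (hM : (M : ZMod n) = 1) (p : P) : r (p ^ M) - r p ∈ Rl ℓ := by
  subst hn
  have h1 := r_zpow hr p (M : ℤ)
  rw [zpow_natCast] at h1
  have h2 : ((M : ℤ) : ZMod (ℓ ^ e)) = ((1 : ℤ) : ZMod (ℓ ^ e)) := by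
    push_cast
    exact hM
  rw [ZMod.intCast_eq_intCast_iff_dvd_sub] at h2
  obtain ⟨c, hc⟩ := h2
  have h3 := int_mul_mem (R := Rl ℓ) (-c) (hre p)
  have h4 := (Rl ℓ).add_mem h1 h3
  have e1 : r (p ^ M) - ((M : ℤ) : ℚ) * r p + ((-c : ℤ) : ℚ) * ((ℓ : ℚ) ^ e * r p) =
      r (p ^ M) - r p := by
    have hq : (1 : ℚ) - M = (ℓ : ℚ) ^ e * c := by
      have h5 := congrArg (fun z : ℤ => (z : ℚ)) hc
      push_cast at h5
      exact h5
    have h6 : (M : ℚ) = 1 - (ℓ : ℚ) ^ e * c := by linarith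
    push_cast
    rw [h6]
    ring
  rw [e1] at h4
  exact h4

end pt

/-! ### the braid relations -/

section br

variable {Γ : Type} [Group Γ] (D : Bd Γ)

theorem comm_a_T : Commute D.a D.T := by
  have h1 : D.a * (D.a * D.b * D.a) = D.a * D.b * D.a * D.b := by
    have h2 := D.r1
    simp only [mul_assoc] at h2 ⊢
    rw [h2]
  have h2 : D.b * (D.a * D.b * D.a) = D.a * D.b * D.a * D.a := by
    conv_rhs => rw [D.r1]
    simp only [mul_assoc]
  have h3 : (D.a * D.b) ^ 3 = (D.a * D.b * D.a) * (D.a * D.b * D.a) := by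
    have h4 : (D.a * D.b) ^ 3 = D.a * D.b * D.a * (D.b * D.a * D.b) := by
      rw [pow_succ, pow_two]
      simp only [mul_assoc]
    rw [h4, ← D.r1]
  have h5 : Commute D.a ((D.a * D.b) ^ 3) := by
    show D.a * (D.a * D.b) ^ 3 = (D.a * D.b) ^ 3 * D.a
    rw [h3, ← mul_assoc, h1, mul_assoc (D.a * D.b * D.a) D.b, h2, ← mul_assoc]
  unfold Bd.T
  rw [show (6 : ℕ) = 3 * 2 from rfl, pow_mul]
  exact h5.pow_right 2

theorem comm_b_T : Commute D.b D.T := by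
  have h1 : D.a * (D.a * D.b * D.a) = D.a * D.b * D.a * D.b := by
    have h2 := D.r1
    simp only [mul_assoc] at h2 ⊢
    rw [h2]
  have h2 : D.b * (D.a * D.b * D.a) = D.a * D.b * D.a * D.a := by
    conv_rhs => rw [D.r1]
    simp only [mul_assoc]
  have h3 : (D.a * D.b) ^ 3 = (D.a * D.b * D.a) * (D.a * D.b * D.a) := by
    have h4 : (D.a * D.b) ^ 3 = D.a * D.b * D.a * (D.b * D.a * D.b) := by
      rw [pow_succ, pow_two]
      simp only [mul_assoc]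
    rw [h4, ← D.r1]
  have h5 : Commute D.b ((D.a * D.b) ^ 3) := by
    show D.b * (D.a * D.b) ^ 3 = (D.a * D.b) ^ 3 * D.b
    rw [h3, ← mul_assoc, h2, mul_assoc (D.a * D.b * D.a) D.a, h1, ← mul_assoc]
  unfold Bd.T
  rw [show (6 : ℕ) = 3 * 2 from rfl, pow_mul]
  exact h5.pow_right 2

theorem comm_a_A : Commute D.a D.A := D.r2

theorem comm_a_a3 : Commute D.a D.a3 := by
  unfold Bd.a3
  exact (comm_a_A D).inv_right.mul_right (Commute.refl _)

theorem comm_A_a3 : Commute D.A D.a3 := by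
  unfold Bd.a3
  exact (Commute.refl _).inv_right.mul_right (comm_a_A D).symm

theorem conj_B : D.B * D.a * D.B⁻¹ = D.a3 := by
  unfold Bd.a3
  rw [mul_inv_eq_iff_eq_mul, mul_assoc D.A⁻¹, eq_inv_mul_iff_mul_eq, ← mul_assoc]
  exact D.r3.symm

theorem comm_a_A' : Commute D.a D.A' := by
  have h1 : D.a * D.B * D.a⁻¹ = D.A * D.B := by
    rw [D.r3, mul_inv_cancel_right]
  have h2 : D.a * D.A * D.a⁻¹ = D.A := by
    rw [D.r2, mul_inv_cancel_right]
  have h3 : D.a * D.A' * D.a⁻¹ = D.A' := by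
    unfold Bd.A'
    have e : D.a * (D.B⁻¹ * D.A * D.B) * D.a⁻¹ = (D.a * D.B * D.a⁻¹)⁻¹ *
        (D.a * D.A * D.a⁻¹) * (D.a * D.B * D.a⁻¹) := by
      group
    rw [e, h1, h2]
    group
  exact mul_inv_eq_iff_eq_mul.1 h3

end br

/-! ### restriction to an invariant subset -/

section rs

variable {X : Type}

/-- the restriction of a permutation -/
def rst (f : Equiv.Perm X) (S : Set X) (h : ∀ x ∈ S, f x ∈ S) (h' : ∀ x ∈ S, f⁻¹ x ∈ S) :
    Equiv.Perm S where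
  toFun x := ⟨f x, h x x.2⟩
  invFun x := ⟨f⁻¹ x, h' x x.2⟩
  left_inv x := Subtype.ext (perm_inv f x)
  right_inv x := Subtype.ext (by
    have h1 := perm_inv f⁻¹ (x : X)
    rw [inv_inv] at h1
    exact h1)

theorem rst_coe (f : Equiv.Perm X) (S : Set X) (h : ∀ x ∈ S, f x ∈ S) (h' : ∀ x ∈ S, f⁻¹ x ∈ S)
    (x : S) : ((rst f S h h' x : S) : X) = f x := rfl

theorem rst_pow (f : Equiv.Perm X) (S : Set X) (h : ∀ x ∈ S, f x ∈ S)
    (h' : ∀ x ∈ S, f⁻¹ x ∈ S) (m : ℕ) (x : S) :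
    (((rst f S h h' ^ m) x : S) : X) = (f ^ m) x := by
  induction m generalizing x with
  | zero => rfl
  | succ m ih =>
    rw [pow_succ, pow_succ, Equiv.Perm.mul_apply, Equiv.Perm.mul_apply, ih, rst_coe]

/-- the restriction of an action -/
def rsth {G : Type} [Group G] (φ : G →* Equiv.Perm X) (S : Set X)
    (h : ∀ g, ∀ x ∈ S, φ g x ∈ S) : G →* Equiv.Perm S where
  toFun g := rst (φ g) S (h g) (fun x hx => by
    rw [← map_inv]
    exact h g⁻¹ x hx)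
  map_one' := by
    ext x
    rw [rst_coe, map_one]
    rfl
  map_mul' g g' := by
    ext x
    rw [rst_coe, map_mul, Equiv.Perm.mul_apply, Equiv.Perm.mul_apply, rst_coe, rst_coe]

theorem rsth_coe {G : Type} [Group G] (φ : G →* Equiv.Perm X) (S : Set X)
    (h : ∀ g, ∀ x ∈ S, φ g x ∈ S) (g : G) (x : S) :
    ((rsth φ S h g x : S) : X) = φ g x := rfl

end rs

/-! ### the theorem -/

section uni

variable {P : Type} [CommGroup P]

/-- the first function -/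
def Phi (R : Subring ℚ) (n : ℕ) (r₁ r₂ : P → ℚ) (Λ : Set (L2 n P)) : ℚ :=
  (mu R n r₁ (Ls n Λ) - mu R n r₁ (Lt n Λ)) * (mu R n r₂ (Ls n Λ) - mu R n r₂ (Lt n Λ)) +
    (mu R n r₁ (Ls n Λ) - al R n r₁ (mu R n r₁ (Lt n Λ)) Λ) *
      (mu R n r₂ (Lt n Λ) - be R n r₂ (mu R n r₂ (Ls n Λ)) Λ)

/-- the second function, main case -/
def Psi' (R : Subring ℚ) (n : ℕ) (r₁ r₂ : P → ℚ) (p₀ : P) (Λ : Set (L2 n P)) : ℚ :=
  -((mu R n r₂ (Ls n Λ) - al R n r₂ (mu R n r₂ (Lt n Λ)) Λ) *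
      (bf R n r₁ (mu R n r₁ (Ls n Λ)) (mu R n r₁ (Lt n Λ)) Λ - mu R n r₁ (Lt n Λ))) +
    (r₁ p₀ - mu R n r₁ (Lt n Λ)) * mu R n r₂ (Ls n Λ) +
    mu R n r₁ (Ls n Λ) * (r₂ p₀ - mu R n r₂ (Lt n Λ))

open Classical in
/-- the second function -/
def Psi (R : Subring ℚ) (n : ℕ) (r₁ r₂ : P → ℚ) (p₀ : P) (Λ : Set (L2 n P)) : ℚ :=
  if ∀ (l : ℤ) (p : P), (Multiplicative.ofAdd (l : ZMod n), p) ∈ Lt n Λ →
    r₁ p - l * mu R n r₁ (Lt n Λ) ∈ R then Psi' R n r₁ r₂ p₀ Λ else 0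

variable {R : Subring ℚ} {n : ℕ} {r : P → ℚ}

theorem mu_Ls (h0 : ∀ p, r p ∈ R → r p = 0) {Λ : Set (L2 n P)} (h : ∀ g ∈ Λ, r g.2.2 ∈ R) :
    mu R n r (Ls n Λ) = 0 :=
  mu_zero h0 fun g hg => h (g.1, 1, g.2) hg

theorem mu_Lt (h0 : ∀ p, r p ∈ R → r p = 0) {Λ : Set (L2 n P)} (h : ∀ g ∈ Λ, r g.2.2 ∈ R) :
    mu R n r (Lt n Λ) = 0 :=
  mu_zero h0 fun g hg => h (1, g.1, g.2) hg

end uni

/-- UNI -/
theorem uni (hlex : LexStmt) (hxsg : XsgStmt) : UniStmt := by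
  intro ℓ _ e P _ _ hP r₁ r₂ p₀ hr₁ hr₂ he₁ he₂ h0₁ h0₂
  have hℓ : ℓ.Prime := Fact.out
  obtain ⟨n, hn⟩ : ∃ n, n = ℓ ^ e := ⟨_, rfl⟩
  have hn0 : 0 < n := by
    rw [hn]
    exact pow_pos hℓ.pos e
  rw [← hn]
  obtain ⟨R, hR⟩ : ∃ R, R = Rl ℓ := ⟨_, rfl⟩
  rw [← hR] at hr₁ hr₂ he₁ he₂ h0₁ h0₂ ⊢
  refine ⟨Phi R n r₁ r₂, Psi R n r₁ r₂ p₀, fun U => mu R n r₁ U * mu R n r₂ U, ?_, ?_, ?_, ?_,
    ?_, ?_, ?_, ?_⟩
  · intro Λ h
    unfold Phi
    rw [mu_Ls h0₁ h, mu_Lt h0₁ h, al_zero h]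
    ring
  · intro Λ h
    unfold Phi
    rw [mu_Ls h0₂ h, mu_Lt h0₂ h, be_zero h]
    ring
  · intro Λ h h'
    unfold Psi
    split_ifs
    · unfold Psi'
      rw [mu_Ls h0₂ h', mu_Lt h0₂ h', al_zero h', mu_Ls h0₁ h]
      ring
    · rfl
  · intro Λ h h'
    unfold Psi
    split_ifs with hL
    · have e1 : mu R n r₁ (Ls n Λ) = 0 := mu_zero h0₁ fun g hg => (h' (g.1, 1, g.2) hg rfl).1
      have e2 : mu R n r₂ (Ls n Λ) = 0 := mu_zero h0₂ fun g hg => (h' (g.1, 1, g.2) hg rfl).2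
      have e3 : bf R n r₁ 0 (mu R n r₁ (Lt n Λ)) Λ = mu R n r₁ (Lt n Λ) := by
        apply bf_nu
        · intro h1
          exact mu_Lt h0₁ h1
        · intro k l p hp
          rw [mul_zero, sub_zero]
          exact hL l p (h _ hp)
      unfold Psi'
      rw [e1, e2, e3]
      ring
    · rfl
  · intro U h
    show mu R n r₁ U * mu R n r₂ U = 0
    rw [mu_zero h0₁ h, zero_mul]
  · intro U h
    show mu R n r₁ U * mu R n r₂ U = 0
    rw [mu_zero h0₂ h, mul_zero]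
  · intro U p h
    show mu R n r₁ U * mu R n r₂ U = _
    rw [mu_one h, mu_one h]
  intro Γ X _ _ D Q q₀ hq₀ i q σ hXa M hM has ha3 hTs
  have hc := hXa.comm
  obtain ⟨s, hs⟩ : ∃ s, s = D.a ^ M := ⟨_, rfl⟩
  obtain ⟨t, ht⟩ : ∃ t, t = D.a3 ^ M := ⟨_, rfl⟩
  obtain ⟨τ, hτ⟩ : ∃ τ, τ = D.T ^ M := ⟨_, rfl⟩
  rw [← hs, ← ht, ← hτ]
  rw [← hs] at has
  rw [← ht] at ha3
  rw [← hτ] at hTs
  -- commuting elements
  have c_as : Commute D.a s := by
    rw [hs]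
    exact (Commute.refl _).pow_right M
  have c_at : Commute D.a t := by
    rw [ht]
    exact (comm_a_a3 D).pow_right M
  have c_aτ : Commute D.a τ := by
    rw [hτ]
    exact (comm_a_T D).pow_right M
  have c_bτ : Commute D.b τ := by
    rw [hτ]
    exact (comm_b_T D).pow_right M
  have c_As : Commute D.A s := by
    rw [hs]
    exact (comm_a_A D).symm.pow_right M
  have c_At : Commute D.A t := by
    rw [ht]
    exact (comm_A_a3 D).pow_right M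
  have c_A's : Commute D.A' s := by
    rw [hs]
    exact (comm_a_A' D).symm.pow_right M
  have c_Ts : Commute D.T s := by
    rw [hs]
    exact (comm_a_T D).symm.pow_right M
  have c_Tτ : Commute D.T τ := by
    rw [hτ]
    exact (Commute.refl _).pow_right M
  have c_st : s * t = t * s := by
    rw [hs, ht]
    exact ((comm_a_a3 D).pow_pow M M).eq
  have c_sτ : s * τ = τ * s := by
    rw [hs, hτ]
    exact ((comm_a_T D).pow_pow M M).eq
  have hBs : D.B * s * D.B⁻¹ = t := by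
    rw [hs, ht, ← conj_B D, conj_pow]
  -- the invariant subset
  have hqq : ∀ p p' x, q p (q p' x) = q p' (q p x) := by
    intro p p' x
    have h1 : q p (q p' x) = q (p * p') x := by
      rw [map_mul]
      rfl
    have h2 : q p' (q p x) = q (p' * p) x := by
      rw [map_mul]
      rfl
    rw [h1, h2, mul_comm]
  have hgd : ∀ w : Equiv.Perm X, (∀ p x, w (q p x) = q p (w x)) → ∀ x ∈ Gd q, w x ∈ Gd q := by
    intro w hw x hx p hp
    rw [← hw] at hp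
    exact hx p (w.injective hp)
  have hgi : ∀ g, ∀ x ∈ Gd q, i g x ∈ Gd q := fun g => hgd _ fun p x => hc g p x
  have hgq : ∀ p, ∀ x ∈ Gd q, q p x ∈ Gd q := fun p => hgd _ fun p' x => hqq p p' x
  have hσq : ∀ p x, σ (q p x) = q p (σ x) := fun p x => (hXa.sq p x).symm
  have hσq' : ∀ p x, σ⁻¹ (q p x) = q p (σ⁻¹ x) := by
    intro p x
    apply σ.injective
    rw [hσq]
    have h1 : ∀ y, σ (σ⁻¹ y) = y := by
      intro y
      have h2 := perm_inv σ⁻¹ y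
      rw [inv_inv] at h2
      exact h2
    rw [h1, h1]
  have hgσ : ∀ x ∈ Gd q, σ x ∈ Gd q := hgd _ hσq
  have hgσ' : ∀ x ∈ Gd q, σ⁻¹ x ∈ Gd q := hgd _ hσq'
  obtain ⟨i', hi'⟩ : ∃ i' : Γ →* Equiv.Perm (Gd q), i' = rsth i (Gd q) hgi := ⟨_, rfl⟩
  obtain ⟨q', hq'⟩ : ∃ q' : Q →* Equiv.Perm (Gd q), q' = rsth q (Gd q) hgq := ⟨_, rfl⟩
  obtain ⟨σ', hσ'⟩ : ∃ σ' : Equiv.Perm (Gd q), σ' = rst σ (Gd q) hgσ hgσ' := ⟨_, rfl⟩
  have ic : ∀ g (x : Gd q), ((i' g x : Gd q) : X) = i g x := by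
    intro g x
    rw [hi', rsth_coe]
  have qc : ∀ p (x : Gd q), ((q' p x : Gd q) : X) = q p x := by
    intro p x
    rw [hq', rsth_coe]
  have σc : ∀ (x : Gd q), ((σ' x : Gd q) : X) = σ x := by
    intro x
    rw [hσ', rst_coe]
  have hcop : (orderOf σ').Coprime ℓ := by
    apply Nat.Coprime.coprime_dvd_left _ hXa.cop
    apply orderOf_dvd_of_pow_eq_one
    ext x
    rw [hσ', rst_pow, pow_orderOf_eq_one]
    rfl
  -- the functions
  obtain ⟨κ₁, hκ₁⟩ : ∃ κ₁ : Gd q → ℚ, ∀ x, κ₁ x = mu R n r₁ (ty1 n i q τ x) := ⟨_, fun _ => rfl⟩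
  obtain ⟨κ₂, hκ₂⟩ : ∃ κ₂ : Gd q → ℚ, ∀ x, κ₂ x = mu R n r₂ (ty1 n i q τ x) := ⟨_, fun _ => rfl⟩
  obtain ⟨μ₁, hμ₁⟩ : ∃ μ₁ : Gd q → ℚ, ∀ x, μ₁ x = mu R n r₁ (ty1 n i q s x) := ⟨_, fun _ => rfl⟩
  obtain ⟨μ₂, hμ₂⟩ : ∃ μ₂ : Gd q → ℚ, ∀ x, μ₂ x = mu R n r₂ (ty1 n i q s x) := ⟨_, fun _ => rfl⟩
  obtain ⟨η, hη⟩ : ∃ η : Gd q → ℚ, ∀ x, η x = mu R n r₁ (ty1 n i q s x) -
      al R n r₁ (mu R n r₁ (ty1 n i q t x)) (ty2 n i q s t x) := ⟨_, fun _ => rfl⟩
  obtain ⟨ζ, hζ⟩ : ∃ ζ : Gd q → ℚ, ∀ x, ζ x = mu R n r₂ (ty1 n i q t x) -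
      be R n r₂ (mu R n r₂ (ty1 n i q s x)) (ty2 n i q s t x) := ⟨_, fun _ => rfl⟩
  obtain ⟨δ, hδ⟩ : ∃ δ : Gd q → ℚ, ∀ x, δ x =
      bf R n r₁ (mu R n r₁ (ty1 n i q s x)) (mu R n r₁ (ty1 n i q τ x)) (ty2 n i q s τ x) -
        mu R n r₁ (ty1 n i q τ x) :=
    ⟨_, fun _ => rfl⟩
  obtain ⟨m, hm⟩ : ∃ m : Gd q → ℚ, ∀ x, m x =
      al R n r₂ (mu R n r₂ (ty1 n i q τ x)) (ty2 n i q s τ x) := ⟨_, fun _ => rfl⟩
  -- invariance
  have hall : ∀ x y : Gd q, ty1 n i q s x = ty1 n i q s y → ty1 n i q t x = ty1 n i q t y →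
      ty1 n i q τ x = ty1 n i q τ y → ty2 n i q s t x = ty2 n i q s t y →
      ty2 n i q s τ x = ty2 n i q s τ y →
      ∀ F ∈ ({κ₁, κ₂, μ₁, μ₂, η, ζ, δ, m} : Set (Gd q → ℚ)), F x = F y := by
    intro x y e1 e2 e3 e4 e5 F hF
    simp only [Set.mem_insert_iff, Set.mem_singleton_iff] at hF
    rcases hF with h | h | h | h | h | h | h | h
    · rw [h, hκ₁, hκ₁, e3]
    · rw [h, hκ₂, hκ₂, e3]
    · rw [h, hμ₁, hμ₁, e1]
    · rw [h, hμ₂, hμ₂, e1]
    · rw [h, hη, hη, e1, e2, e4]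
    · rw [h, hζ, hζ, e1, e2, e4]
    · rw [h, hδ, hδ, e1, e3, e5]
    · rw [h, hm, hm, e3, e5]
  have hνB : ∀ x : X, ty1 n i q s (i D.B⁻¹ x) = ty1 n i q t x := by
    intro x
    rw [ty1_conj hc, inv_inv, hBs]
  have hμB₁ : ∀ x : Gd q, μ₁ (i' D.B⁻¹ x) = mu R n r₁ (ty1 n i q t x) := by
    intro x
    rw [hμ₁, ic, hνB]
  have hμB₂ : ∀ x : Gd q, μ₂ (i' D.B⁻¹ x) = mu R n r₂ (ty1 n i q t x) := by
    intro x
    rw [hμ₂, ic, hνB]
  -- from the elements to the `M`-th powers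
  have hMr₁ : ∀ p, r₁ (p ^ M) - r₁ p ∈ R := by
    intro p
    rw [hR]
    rw [hR] at hr₁ he₁
    exact r_pow_M hr₁ he₁ hn hM p
  have hMr₂ : ∀ p, r₂ (p ^ M) - r₂ p ∈ R := by
    intro p
    rw [hR]
    rw [hR] at hr₂ he₂
    exact r_pow_M hr₂ he₂ hn hM p
  have hto : ∀ {r : P → ℚ}, (∀ p, r (p ^ M) - r p ∈ R) → ∀ (p : Q) (c : ℚ),
      r (((p ^ M : Q)) : P) - c ∈ R → r (p : P) - c ∈ R := by
    intro r hr p c h
    rw [Subgroup.coe_pow] at h
    have h1 := R.sub_mem h (hr p)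
    have e1 : r ((p : P) ^ M) - c - (r ((p : P) ^ M) - r p) = r (p : P) - c := by ring
    rwa [e1] at h1
  have hm1 : ∀ (g : Γ) (x : Gd q) (k : ℤ) (p : Q), i' (g ^ k) x = q' p x →
      i ((g ^ M) ^ k) x = q (p ^ M) x := by
    intro g x k p h
    have h1 : i (g ^ k) x = q p x := by
      rw [← ic, ← qc, h]
    have h2 := pow_rel hc h1 M
    have e1 : (g ^ M) ^ k = (g ^ k) ^ M := by
      rw [← zpow_natCast, ← zpow_natCast, ← zpow_mul, ← zpow_mul, mul_comm]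
    rw [e1]
    exact h2
  have hm2 : ∀ (g g' : Γ), Commute g g' → ∀ (x : Gd q) (k l : ℤ) (p : Q),
      i' (g ^ k * g' ^ l) x = q' p x → i ((g ^ M) ^ k * (g' ^ M) ^ l) x = q (p ^ M) x := by
    intro g g' hg x k l p h
    have h1 : i (g ^ k * g' ^ l) x = q p x := by
      rw [← ic, ← qc, h]
    have h2 := pow_rel hc h1 M
    have e1 : ∀ (w : Γ) (k : ℤ), (w ^ M) ^ k = (w ^ k) ^ M := by
      intro w k
      rw [← zpow_natCast, ← zpow_natCast, ← zpow_mul, ← zpow_mul, mul_comm]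
    rw [e1, e1, ← ((hg.zpow_left k).zpow_right l).mul_pow]
    exact h2
  have hFm : Fm R D i' q' (fun p : Q => r₁ p) (fun p : Q => r₂ p) κ₁ κ₂ μ₁ μ₂ η ζ δ m := by
    constructor
    · intro F hF p x
      have hw1 : ∀ g x, q p (i g x) = i g (q p x) := fun g x => (hc g p x).symm
      have hw2 : ∀ p' x, q p (q p' x) = q p' (q p x) := fun p' x => hqq p p' x
      apply hall _ _ _ _ _ _ _ F hF
      · rw [qc, ty1_perm hw1 hw2]
      · rw [qc, ty1_perm hw1 hw2]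
      · rw [qc, ty1_perm hw1 hw2]
      · rw [qc, ty2_perm hw1 hw2]
      · rw [qc, ty2_perm hw1 hw2]
    · intro F hF x
      apply hall _ _ _ _ _ _ _ F hF
      · rw [ic, ty1_inv hc c_as]
      · rw [ic, ty1_inv hc c_at]
      · rw [ic, ty1_inv hc c_aτ]
      · rw [ic, ty2_inv hc c_as c_at]
      · rw [ic, ty2_inv hc c_as c_aτ]
    · intro F hF x
      simp only [Set.mem_insert_iff, Set.mem_singleton_iff] at hF
      rcases hF with h | h
      · rw [h, hκ₁, hκ₁, ic, ty1_inv hc c_bτ]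
      · rw [h, hκ₂, hκ₂, ic, ty1_inv hc c_bτ]
    · intro F hF x
      simp only [Set.mem_insert_iff, Set.mem_singleton_iff] at hF
      rcases hF with h | h | h | h
      · rw [h, hμ₁, hμ₁, ic, ty1_inv hc c_As]
      · rw [h, hμ₂, hμ₂, ic, ty1_inv hc c_As]
      · rw [h, hη, hη, ic, ty1_inv hc c_As, ty1_inv hc c_At, ty2_inv hc c_As c_At]
      · rw [h, hζ, hζ, ic, ty1_inv hc c_As, ty1_inv hc c_At, ty2_inv hc c_As c_At]
    · intro F hF x
      simp only [Set.mem_insert_iff, Set.mem_singleton_iff] at hF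
      rcases hF with h | h
      · rw [h, hμ₁, hμ₁, ic, ty1_inv hc c_A's]
      · rw [h, hμ₂, hμ₂, ic, ty1_inv hc c_A's]
    · intro F hF x
      simp only [Set.mem_insert_iff, Set.mem_singleton_iff] at hF
      rcases hF with h | h
      · rw [h, hδ, hδ, ic, ty1_inv hc c_Ts, ty1_inv hc c_Tτ, ty2_inv hc c_Ts c_Tτ]
      · rw [h, hm, hm, ic, ty1_inv hc c_Tτ, ty2_inv hc c_Ts c_Tτ]
    · intro x k p h
      have h1 := hm1 _ _ _ _ h
      rw [← hτ] at h1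
      have h2 := (mem_ty1 (n := n) hTs (p ^ M) k).2 h1
      rw [hκ₁]
      exact hto hMr₁ p _ (pt_mu hlex hn0 hc hTs x.2 hr₁ k _ h2)
    · intro x k p h
      have h1 := hm1 _ _ _ _ h
      rw [← hτ] at h1
      have h2 := (mem_ty1 (n := n) hTs (p ^ M) k).2 h1
      rw [hκ₂]
      exact hto hMr₂ p _ (pt_mu hlex hn0 hc hTs x.2 hr₂ k _ h2)
    · intro x k p h
      have h1 := hm1 _ _ _ _ h
      rw [← hs] at h1
      have h2 := (mem_ty1 (n := n) has (p ^ M) k).2 h1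
      rw [hμ₁]
      exact hto hMr₁ p _ (pt_mu hlex hn0 hc has x.2 hr₁ k _ h2)
    · intro x k p h
      have h1 := hm1 _ _ _ _ h
      rw [← hs] at h1
      have h2 := (mem_ty1 (n := n) has (p ^ M) k).2 h1
      rw [hμ₂]
      exact hto hMr₂ p _ (pt_mu hlex hn0 hc has x.2 hr₂ k _ h2)
    · intro x k l p h
      have h1 := hm2 _ _ (comm_a_a3 D) _ _ _ _ h
      rw [← hs, ← ht] at h1
      have h2 := (mem_ty2 (n := n) has ha3 (p ^ M) k l).2 h1
      have h3 := pt_al hlex hn0 hc c_st has ha3 x.2 hr₁ h0₁ k l _ h2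
      rw [hμB₁, hμ₁, hη, sub_sub_cancel, sub_sub]
      rw [sub_sub] at h3
      exact hto hMr₁ p _ h3
    · intro x k l p h
      have h1 := hm2 _ _ (comm_a_a3 D) _ _ _ _ h
      rw [← hs, ← ht] at h1
      have h2 := (mem_ty2 (n := n) has ha3 (p ^ M) k l).2 h1
      have h3 := pt_be hlex hn0 hc c_st has ha3 x.2 hr₂ h0₂ k l _ h2
      rw [hμB₂, hμ₂, hζ, sub_sub_cancel, sub_sub]
      rw [sub_sub] at h3
      exact hto hMr₂ p _ h3
    · intro x k l p h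
      have h1 := hm2 _ _ (comm_a_T D) _ _ _ _ h
      rw [← hs, ← hτ] at h1
      have h2 := (mem_ty2 (n := n) has hTs (p ^ M) k l).2 h1
      have h3 := pt_bf hlex hn0 hc c_sτ has hTs x.2 hr₁ h0₁ (mu R n r₁ (ty1 n i q τ x)) k l _ h2
      rw [hμ₁, hδ, hκ₁, add_sub_cancel, sub_sub]
      rw [sub_sub] at h3
      exact hto hMr₁ p _ h3
    · intro x k l p h
      have h1 := hm2 _ _ (comm_a_T D) _ _ _ _ h
      rw [← hs, ← hτ] at h1
      have h2 := (mem_ty2 (n := n) has hTs (p ^ M) k l).2 h1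
      have h3 := pt_al hlex hn0 hc c_sτ has hTs x.2 hr₂ h0₂ k l _ h2
      rw [hm, hκ₂, sub_sub]
      rw [sub_sub] at h3
      exact hto hMr₂ p _ h3
  have hσall : ∀ F ∈ ({κ₁, κ₂, μ₁, μ₂, η, ζ, δ, m} : Set (Gd q → ℚ)), ∀ x, F (σ' x) = F x := by
    intro F hF x
    have hw1 : ∀ g x, σ (i g x) = i g (σ x) := fun g x => (hXa.sg g x).symm
    apply hall _ _ _ _ _ _ _ F hF
    · rw [σc, ty1_perm hw1 hσq]
    · rw [σc, ty1_perm hw1 hσq]
    · rw [σc, ty1_perm hw1 hσq]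
    · rw [σc, ty2_perm hw1 hσq]
    · rw [σc, ty2_perm hw1 hσq]
  classical
  rw [hR] at hr₁ hr₂ hFm
  have hfin := hxsg ℓ Γ Q (Gd q) D i' q' q₀ σ' (hP.to_subgroup Q)
    (by
      intro g p x
      apply Subtype.ext
      rw [ic, qc, qc, ic, hc])
    (by
      intro g x
      apply Subtype.ext
      rw [ic, σc, σc, ic, hXa.sg])
    (by
      intro p x
      apply Subtype.ext
      rw [qc, σc, σc, qc, hXa.sq])
    hcop
    (by
      ext x
      rw [ic, hXa.ts, Equiv.Perm.mul_apply, Equiv.Perm.mul_apply, qc, σc])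
    (by
      intro p x h
      apply x.2
      rw [← qc, h])
    (fun p => r₁ p) (fun p => r₂ p)
    (by
      intro p p'
      show r₁ ((p * p' : Q) : P) - r₁ p - r₁ p' ∈ _
      rw [Subgroup.coe_mul]
      exact hr₁ _ _)
    (by
      intro p p'
      show r₂ ((p * p' : Q) : P) - r₂ p - r₂ p' ∈ _
      rw [Subgroup.coe_mul]
      exact hr₂ _ _)
    κ₁ κ₂ μ₁ μ₂ η ζ δ m hFm hσall
  rw [hR]
  refine (congrArg (· ∈ Rl ℓ) ?_).mp hfin
  congr 1
  rw [Finset.sum_subtype (Finset.univ.filter (· ∈ Gd q)) (p := fun x => x ∈ Gd q) (by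
    intro x
    simp)]
  apply Finset.sum_congr rfl
  intro x _
  have hPsi : Psi R n r₁ r₂ p₀ (ty2 n i q s τ (x : X)) =
      Psi' R n r₁ r₂ p₀ (ty2 n i q s τ (x : X)) := by
    unfold Psi
    rw [if_pos]
    intro l p hp
    rw [Lt_ty2 has hTs] at hp ⊢
    rw [← hR] at hr₁
    exact pt_mu hlex hn0 hc hTs x.2 hr₁ l p hp
  rw [hR] at hPsi
  rw [hPsi]
  unfold Phi Psi'
  rw [Ls_ty2 has ha3, Lt_ty2 has ha3, Ls_ty2 has hTs, Lt_ty2 has hTs, hμB₁, hμB₂, hκ₁, hκ₂,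
    hμ₁, hμ₂, hη, hζ, hδ, hm, hq₀, hR]
  ring

end Pool.Agent.SOR.H32
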